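import Pool.Agent.H49.TRN.S1
import Pool.Agent.H49.FOS.S1

set_option autoImplicit false

namespace Pool.TRN

open MvPolynomial Pool.FOS

theorem lfg_hom (p : ℕ) (P : Fin (p + 1) → ℂ) :
    (∑ i : Fin (p + 1), C (P i) * X i.castSucc + X (Fin.last (p + 1)) :
      MvPolynomial (Fin (p + 2)) ℂ).IsHomogeneous 1 := by
  refine IsHomogeneous.add (IsHomogeneous.sum _ _ _ fun i _ => ?_) (isHomogeneous_X _ _)
  exact (isHomogeneous_X ℂ i.castSucc).C_mul _

theorem t_ong (h1 : DU1Stmt) (h2 : DU2Stmt) : ONGStmt := by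
  intro p k d s P hk hV
  let g : Fin s → MvPolynomial (Fin (p + 2)) ℂ := fun j =>
    (∑ i : Fin (p + 1), C (P j i) * X i.castSucc + X (Fin.last (p + 1))) ^ d
  refine ⟨g, fun i => ?_, fun F hF => ?_⟩
  · have := (lfg_hom p (P i)).pow d
    rwa [one_mul] at this
  let W : Submodule ℂ (MvPolynomial (Fin (p + 2)) ℂ) :=
    { carrier := {G | ∃ h : Fin s → MvPolynomial (Fin (p + 2)) ℂ, (∀ i, (h i).IsHomogeneous d) ∧
        G = ∑ i, g i ^ (k - 1) * h i}
      add_mem' := by
        rintro _ _ ⟨h, hh, rfl⟩ ⟨h', hh', rfl⟩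
        refine ⟨fun i => h i + h' i, fun i => (hh i).add (hh' i), ?_⟩
        rw [← Finset.sum_add_distrib]
        exact Finset.sum_congr rfl fun i _ => by ring
      zero_mem' := ⟨fun _ => 0, fun _ => isHomogeneous_zero _ _ _, by simp⟩
      smul_mem' := by
        rintro c _ ⟨h, hh, rfl⟩
        refine ⟨fun i => C c * h i, fun i => (hh i).C_mul c, ?_⟩
        rw [smul_eq_C_mul, Finset.mul_sum]
        exact Finset.sum_congr rfl fun i _ => by ring }
  by_contra hn
  have hW : F ∉ W := hn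
  obtain ⟨φ, hφ, hb⟩ := Submodule.exists_dual_map_eq_bot_of_notMem hW inferInstance
  have hker : ∀ G ∈ W, φ G = 0 := fun G hG => by
    have : φ G ∈ W.map φ := Submodule.mem_map_of_mem hG
    rwa [hb, Submodule.mem_bot] at this
  obtain ⟨A, hA1, hA2, hA3⟩ := h1 p k d φ
  refine hφ (hA3 (hV A hA1 fun i => ?_) F hF)
  refine h2 p k d φ A (P i) hk hA2 fun h hh => ?_
  refine hker _ ⟨fun j => if j = i then h else 0, fun j => ?_, ?_⟩
  · by_cases hj : j = i
    · simp only [hj, if_true]; exact hh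
    · simp only [hj, if_false]; exact isHomogeneous_zero _ _ _
  · rw [Finset.sum_eq_single i]
    · simp only [if_true, g]
      rw [← pow_mul, mul_comm d (k - 1)]
    · intro j _ hj
      simp [hj]
    · intro hi
      exact absurd (Finset.mem_univ i) hi

end Pool.TRN
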