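import Pool.Agent.H49.TRN.S1

set_option autoImplicit false

namespace Pool.TRN

open MvPolynomial Pool.FOS

theorem t_sbs : SBSStmt := by
  classical
  intro m s D D' hD hC
  obtain ⟨P, hP⟩ := hC
  refine ⟨P, fun c hc a ha => ?_⟩
  have h1 := hP (fun a => if a ∈ D' then c a else 0) ?_ a (hD ha)
  · simpa [ha] using h1
  · intro i q hq
    have h2 := hc i q hq
    rw [← Finset.sum_subset hD]
    · refine Eq.trans (Finset.sum_congr rfl fun b hb => ?_) h2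
      simp [hb]
    · intro b _ hb
      simp [hb]

/-- Union of regions separated by a line (restated). -/
theorem cov_cut (h1 : CUTStmt) (h2 : SBSStmt) {m s₁ s₂ v₁ v₂ : ℕ} {D₁ D₂ D : Finset (ℕ × ℕ)}
    (h : ∀ a ∈ D₁, ∀ b ∈ D₂, v₁ * a.1 + v₂ * a.2 < v₁ * b.1 + v₂ * b.2)
    (c1 : Cov m s₁ D₁) (c2 : Cov m s₂ D₂) (hD : D ⊆ D₁ ∪ D₂) : Cov m (s₁ + s₂) D :=
  h2 m _ _ _ hD (h1 m s₁ s₂ v₁ v₂ D₁ D₂ h c1 c2)

end Pool.TRN
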