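import Pool.Agent.H55.TRN.SBS

set_option autoImplicit false

namespace Pool.TRN

open MvPolynomial Pool.FOS

theorem t_trg (h1 : CUTStmt) (h2 : SBSStmt) (h3 : UPRStmt) (h4 : LORStmt) : TRGStmt := by
  classical
  intro d h D K P hh hD hP
  have e : K ^ 2 + 2 * P + 1 = (2 * P + 1) + K ^ 2 := by ring
  rw [e]
  refine cov_cut h1 h2 (v₁ := 1) (v₂ := d + 2) (D₁ := Lo d h D) (D₂ := Up d h K) ?_
    (h4 d h D P hh hP) (h3 d h K) ?_
  · intro a ha b hb
    simp only [Up, Lo, box, Finset.mem_filter, Finset.mem_product, Finset.mem_range] at ha hb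
    omega
  · intro a ha
    simp only [Up, Lo, Tri, box, Finset.mem_filter, Finset.mem_product, Finset.mem_range,
      Finset.mem_union] at ha ⊢
    by_cases hc : a.1 + (d + 2) * a.2 < (d + 2) * h
    · left
      omega
    · right
      omega

end Pool.TRN
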