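import Pool.Agent.H55.TRN.SBS

set_option autoImplicit false

namespace Pool.TRN

open MvPolynomial Pool.FOS

theorem t_upr (h1 : CUTStmt) (h2 : SBSStmt) (h3 : STUStmt) : UPRStmt := by
  classical
  intro d h j
  induction j with
  | zero =>
    refine ⟨fun _ => (0, 0), fun c _ a ha => ?_⟩
    exfalso
    simp only [Up, box, Finset.mem_filter, Finset.mem_product, Finset.mem_range] at ha
    obtain ⟨⟨ha1, ha2⟩, ha3, ha4⟩ := ha
    have : (d + 2) * (a.1 + a.2) < (d + 2) * h := by
      apply Nat.mul_lt_mul_of_pos_left _ (by omega)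
      omega
    have h5 : a.1 ≤ (d + 2) * a.1 := Nat.le_mul_of_pos_left _ (by omega)
    rw [Nat.mul_add] at this
    omega
  | succ j ih =>
    have e : (j + 1) ^ 2 = j ^ 2 + (2 * j + 1) := by ring
    rw [e]
    refine cov_cut h1 h2 (v₁ := 1) (v₂ := 1) (D₁ := Up d h j) (D₂ := Str d h j) ?_ ih (h3 d h j) ?_
    · intro a ha b hb
      simp only [Up, Str, box, Finset.mem_filter, Finset.mem_product, Finset.mem_range] at ha hb
      omega
    · intro a ha
      simp only [Up, Str, box, Finset.mem_filter, Finset.mem_product, Finset.mem_range,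
        Finset.mem_union] at ha ⊢
      by_cases hc : a.1 + a.2 < h + j * (d + 1)
      · left
        omega
      · right
        omega

end Pool.TRN
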